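import Mathlib
import Pool.Agent.H39.CC1

namespace Pool.Agent.Results.MP_1b9d6e_gt.CoreCompact

open Set TopologicalSpace

universe u

/-- `V ≪ U`: every family of open sets whose union contains `U` has a finite subfamily whose
union contains `V`. -/
def WayBelow {Y : Type u} [TopologicalSpace Y] (V U : Set Y) : Prop :=
  ∀ S : Set (Set Y), (∀ W ∈ S, IsOpen W) → U ⊆ ⋃₀ S → ∃ T ⊆ S, T.Finite ∧ V ⊆ ⋃₀ T

/-- `Y` is core-compact: for every open `U` and `y ∈ U` there is an open `V` with
`y ∈ V ≪ U`. -/
def IsCoreCompact (Y : Type u) [TopologicalSpace Y] : Prop :=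
  ∀ U : Set Y, IsOpen U → ∀ y ∈ U, ∃ V : Set Y, IsOpen V ∧ y ∈ V ∧ WayBelow V U

/-- If the lattice of closed sets of `X` (ordered by inclusion) is core-compact in its Scott
topology, then `X` is core-compact. -/
theorem result (X : Type u) [TopologicalSpace X] [T0Space X]
    (h : IsCoreCompact (Topology.WithScott (Closeds X))) : IsCoreCompact X :=
  @Pool.Agent.H39.CC1.main X _ (Topology.scott (Closeds X) univ)
    (@Topology.IsScott.mk _ _ _ (Topology.scott (Closeds X) univ) rfl) h

end Pool.Agent.Results.MP_1b9d6e_gt.CoreCompact
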